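import Pool.Agent.helper25.KBR.TraceId

/-!
# Pointwise monotonicity of the weighted trace densities (module KP, MP_07cd05_gt)
-/

set_option maxSynthPendingDepth 3
noncomputable section

namespace KBR

open Set MeasureTheory Metric
open scoped ContDiff RealInnerProductSpace NNReal Topology

namespace KP

variable {n : ℕ}

theorem abs_det_le (A : E n →L[ℝ] E n) : |A.det| ≤ ‖A‖ ^ n := by
  have h1 := Measure.addHaar_image_continuousLinearMap (volume : Measure (E n)) A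
    (closedBall (0 : E n) 1)
  have h2 : A '' closedBall (0 : E n) 1 ⊆ closedBall (0 : E n) ‖A‖ := by
    rintro _ ⟨v, hv, rfl⟩
    rw [mem_closedBall_zero_iff] at hv ⊢
    calc ‖A v‖ ≤ ‖A‖ * ‖v‖ := A.le_opNorm v
      _ ≤ ‖A‖ * 1 := by gcongr
      _ = ‖A‖ := mul_one _
  have h3 := measure_mono (μ := (volume : Measure (E n))) h2
  rw [h1, Measure.addHaar_closedBall' (volume : Measure (E n)) (0 : E n) (norm_nonneg A)] at h3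
  have h4 : (volume : Measure (E n)) (closedBall (0 : E n) 1) ≠ 0 :=
    (measure_closedBall_pos _ _ one_pos).ne'
  have h5 : (volume : Measure (E n)) (closedBall (0 : E n) 1) ≠ ⊤ :=
    measure_closedBall_lt_top.ne
  rw [ENNReal.mul_le_mul_iff_left h4 h5] at h3
  have h6 := (ENNReal.ofReal_le_ofReal_iff (by positivity)).1 h3
  simpa using h6

theorem norm_e (k : Fin n) : ‖D2.e n k‖ = 1 := by
  unfold D2.e
  simp

theorem abs_trace_le (A : E n →L[ℝ] E n) :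
    |LinearMap.trace ℝ (E n) (A : E n →ₗ[ℝ] E n)| ≤ n * ‖A‖ := by
  rw [D2.trace_eq]
  calc |∑ k, ⟪A (D2.e n k), D2.e n k⟫| ≤ ∑ k, |⟪A (D2.e n k), D2.e n k⟫| :=
        Finset.abs_sum_le_sum_abs _ _
    _ ≤ ∑ _k : Fin n, ‖A‖ := by
        refine Finset.sum_le_sum fun k _ => ?_
        calc |⟪A (D2.e n k), D2.e n k⟫| ≤ ‖A (D2.e n k)‖ * ‖D2.e n k‖ := abs_real_inner_le_norm _ _
          _ ≤ (‖A‖ * ‖D2.e n k‖) * ‖D2.e n k‖ := by gcongr; exact A.le_opNorm _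
          _ = ‖A‖ := by rw [norm_e]; ring
    _ = n * ‖A‖ := by simp

theorem inv_data (G : E n →L[ℝ] E n) {Λ : ℝ} (hΛ : 0 < Λ)
    (h : ∀ v, ‖v‖ ^ 2 ≤ Λ * ⟪G v, v⟫) :
    ∃ S : E n →L[ℝ] E n, G * S = 1 ∧ S * G = 1 ∧ ‖S‖ ≤ Λ ∧ G.inverse = S ∧ 0 < G.det := by
  have hpos : ∀ v, v ≠ 0 → 0 < ⟪G v, v⟫ := by
    intro v hv
    have h1 := h v
    have h2 : 0 < ‖v‖ ^ 2 := by positivity
    by_contra h3
    push Not at h3
    nlinarith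
  obtain ⟨u, hu⟩ := D2.isUnit_of_pos G hpos
  have e1 : G * (↑u⁻¹ : E n →L[ℝ] E n) = 1 := by rw [← hu]; exact u.mul_inv
  have e2 : (↑u⁻¹ : E n →L[ℝ] E n) * G = 1 := by rw [← hu]; exact u.inv_mul
  refine ⟨(↑u⁻¹ : E n →L[ℝ] E n), e1, e2, ?_, ContinuousLinearMap.inverse_eq e1 e2,
    D2.det_pos_of_pos G hpos⟩
  refine ContinuousLinearMap.opNorm_le_bound _ hΛ.le fun w => ?_
  set v := (↑u⁻¹ : E n →L[ℝ] E n) w with hv
  have hw : G v = w := by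
    have := DFunLike.congr_fun e1 w
    simpa using this
  have h1 := h v
  rw [hw] at h1
  have h2 : ⟪w, v⟫ ≤ ‖w‖ * ‖v‖ := real_inner_le_norm _ _
  have h3 : ‖v‖ ^ 2 ≤ Λ * (‖w‖ * ‖v‖) := h1.trans (by gcongr)
  rcases eq_or_lt_of_le (norm_nonneg v) with h0 | h0
  · rw [← h0]; positivity
  · by_contra hcon
    push Not at hcon
    nlinarith

theorem real_core (n : ℕ) {Λ C : ℝ} (hΛ : 0 < Λ) (hC : 0 < C) :
    ∃ N : ℕ, ∀ δ l₁ l₂ T₁ T₂ d₁ d₂ : ℝ, 0 < δ → l₂ = l₁ + δ → 0 < l₁ → l₁ ≤ Λ ^ 3 →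
      l₂ ≤ Λ ^ 3 → |T₁| ≤ n * Λ * C * δ → |T₂| ≤ n * Λ * C * δ →
      |T₂ - T₁| ≤ n * Λ ^ 2 * C ^ 2 * δ ^ 2 → 0 < d₁ → 0 < d₂ →
      d₁ ≤ (1 + Λ * C * δ) ^ n * d₂ →
      Real.sqrt d₁ * l₁ ^ N * (2 * (N + 1) * δ + l₁ * T₁) <
        Real.sqrt d₂ * l₂ ^ N * (2 * (N + 1) * δ + l₂ * T₂) := by
  set L := Λ ^ 3 with hL
  have hLpos : 0 < L := by positivity
  set C₁ := L * (n * Λ * C) with hC₁
  set C₂ := n * Λ * C + L * (n * Λ ^ 2 * C ^ 2) with hC₂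
  have hC₁0 : 0 ≤ C₁ := by positivity
  have hC₂0 : 0 ≤ C₂ := by positivity
  obtain ⟨p, hp⟩ := exists_nat_ge (L * (Λ * C))
  obtain ⟨m, hm⟩ := exists_nat_ge (C₁ + L * C₂ + 1)
  refine ⟨p * n + m, ?_⟩
  intro δ l₁ l₂ T₁ T₂ d₁ d₂ hδ hl hl₁ hl₁L hl₂L hT₁ hT₂ hT hd₁ hd₂ hd
  set N := p * n + m with hN
  set q := δ / L with hq
  have hq0 : 0 < q := by positivity
  have hδq : δ = L * q := by rw [hq]; field_simp
  have hbern : 1 + Λ * C * δ ≤ (1 + q) ^ p := by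
    have h1 : 1 + (p : ℝ) * q ≤ (1 + q) ^ p := one_add_mul_le_pow (by linarith) p
    have h2 : Λ * C * δ ≤ p * q := by
      rw [hδq]
      have : L * (Λ * C) * q ≤ p * q := by gcongr
      linarith
    linarith
  have hbernn : (1 + Λ * C * δ) ^ n ≤ (1 + q) ^ (p * n) := by
    rw [pow_mul]
    gcongr
  have hsq : Real.sqrt d₁ ≤ (1 + q) ^ (p * n) * Real.sqrt d₂ := by
    have h1 : d₁ ≤ ((1 + q) ^ (p * n) * Real.sqrt d₂) ^ 2 := by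
      rw [mul_pow, Real.sq_sqrt hd₂.le]
      have h2 : (1 : ℝ) ≤ (1 + q) ^ (p * n) := one_le_pow₀ (by linarith)
      calc d₁ ≤ (1 + Λ * C * δ) ^ n * d₂ := hd
        _ ≤ (1 + q) ^ (p * n) * d₂ := by gcongr
        _ ≤ ((1 + q) ^ (p * n)) ^ 2 * d₂ := by
            gcongr
            nlinarith
    calc Real.sqrt d₁ ≤ Real.sqrt (((1 + q) ^ (p * n) * Real.sqrt d₂) ^ 2) :=
          Real.sqrt_le_sqrt h1
      _ = (1 + q) ^ (p * n) * Real.sqrt d₂ := Real.sqrt_sq (by positivity)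
  have hl₂ : l₁ * (1 + q) ≤ l₂ := by
    rw [hl]
    have : l₁ * q ≤ δ := by
      rw [hδq]
      gcongr
    linarith
  have hpow : l₁ ^ N * (1 + q) ^ N ≤ l₂ ^ N := by
    rw [← mul_pow]
    gcongr
  have hm1 : 1 + (m : ℝ) * q ≤ (1 + q) ^ m := one_add_mul_le_pow (by linarith) m
  have hP : 0 < Real.sqrt d₁ * l₁ ^ N := by positivity
  have hmain : Real.sqrt d₁ * l₁ ^ N * (1 + m * q) ≤ Real.sqrt d₂ * l₂ ^ N := by
    calc Real.sqrt d₁ * l₁ ^ N * (1 + m * q)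
        ≤ ((1 + q) ^ (p * n) * Real.sqrt d₂) * l₁ ^ N * (1 + q) ^ m := by gcongr
      _ = Real.sqrt d₂ * (l₁ ^ N * (1 + q) ^ N) := by rw [hN]; ring
      _ ≤ Real.sqrt d₂ * l₂ ^ N := by gcongr
  have hl₂pos : 0 < l₂ := by rw [hl]; linarith
  have hNm : (m : ℝ) ≤ N := by rw [hN]; push_cast; nlinarith [Nat.cast_nonneg (α := ℝ) (p * n), (Nat.cast_mul p n : ((p * n : ℕ) : ℝ) = p * n)]
  -- lower bound for `λ₂ T₂`
  have hlT₂ : -(C₁ * δ) ≤ l₂ * T₂ := by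
    have h1 : |l₂ * T₂| ≤ C₁ * δ := by
      rw [abs_mul, abs_of_pos hl₂pos]
      calc l₂ * |T₂| ≤ L * (n * Λ * C * δ) := by gcongr
        _ = C₁ * δ := by rw [hC₁]; ring
    linarith [(abs_le.1 h1).1]
  have hB₂ : (m + 2) * δ ≤ 2 * (N + 1) * δ + l₂ * T₂ := by
    have h1 : (0 : ℝ) ≤ L * C₂ := by positivity
    have h2 : (m + 2) * δ + C₁ * δ ≤ 2 * (N + 1) * δ := by
      have : (m + 2 : ℝ) + C₁ ≤ 2 * (N + 1) := by linarith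
      nlinarith
    linarith
  have hdiff : -(C₂ * δ ^ 2) ≤ l₂ * T₂ - l₁ * T₁ := by
    have e : l₂ * T₂ - l₁ * T₁ = δ * T₂ + l₁ * (T₂ - T₁) := by rw [hl]; ring
    rw [e]
    have h1 : -(δ * (n * Λ * C * δ)) ≤ δ * T₂ := by
      have := (abs_le.1 hT₂).1
      nlinarith
    have h2 : -(L * (n * Λ ^ 2 * C ^ 2 * δ ^ 2)) ≤ l₁ * (T₂ - T₁) := by
      have h3 : |l₁ * (T₂ - T₁)| ≤ L * (n * Λ ^ 2 * C ^ 2 * δ ^ 2) := by
        rw [abs_mul, abs_of_pos hl₁]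
        gcongr
      linarith [(abs_le.1 h3).1]
    have h4 : C₂ * δ ^ 2 = δ * (n * Λ * C * δ) + L * (n * Λ ^ 2 * C ^ 2 * δ ^ 2) := by
      rw [hC₂]; ring
    linarith
  have hkey : 2 * (N + 1) * δ + l₁ * T₁ < (1 + m * q) * (2 * (N + 1) * δ + l₂ * T₂) := by
    have h1 : C₂ * δ ^ 2 < m * q * ((m + 2) * δ) := by
      have h2 : (L * C₂ + 1) * 1 ≤ (m : ℝ) * (m + 2) := by
        have hm0 : L * C₂ + 1 ≤ (m : ℝ) := by linarith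
        have hm2 : (1 : ℝ) ≤ m + 2 := by
          have := Nat.cast_nonneg (α := ℝ) m
          linarith
        have : (0 : ℝ) ≤ L * C₂ + 1 := by positivity
        gcongr
      have h3 : m * q * ((m + 2) * δ) = (m * (m + 2)) * (q * δ) := by ring
      have h4 : C₂ * δ ^ 2 = (L * C₂) * (q * δ) := by
        rw [hδq]; ring
      rw [h3, h4]
      have h5 : 0 < q * δ := by positivity
      nlinarith
    have h2 : m * q * ((m + 2) * δ) ≤ m * q * (2 * (N + 1) * δ + l₂ * T₂) := by gcongr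
    nlinarith
  have hB₂pos : 0 < 2 * (N + 1) * δ + l₂ * T₂ := lt_of_lt_of_le (by positivity) hB₂
  calc Real.sqrt d₁ * l₁ ^ N * (2 * (N + 1) * δ + l₁ * T₁)
      < Real.sqrt d₁ * l₁ ^ N * ((1 + m * q) * (2 * (N + 1) * δ + l₂ * T₂)) := by gcongr
    _ = Real.sqrt d₁ * l₁ ^ N * (1 + m * q) * (2 * (N + 1) * δ + l₂ * T₂) := by ring
    _ ≤ Real.sqrt d₂ * l₂ ^ N * (2 * (N + 1) * δ + l₂ * T₂) := by gcongr

theorem core {Λ C : ℝ} (hΛ : 0 < Λ) (N : ℕ)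
    (hN : ∀ δ l₁ l₂ T₁ T₂ d₁ d₂ : ℝ, 0 < δ → l₂ = l₁ + δ → 0 < l₁ → l₁ ≤ Λ ^ 3 →
      l₂ ≤ Λ ^ 3 → |T₁| ≤ n * Λ * C * δ → |T₂| ≤ n * Λ * C * δ →
      |T₂ - T₁| ≤ n * Λ ^ 2 * C ^ 2 * δ ^ 2 → 0 < d₁ → 0 < d₂ →
      d₁ ≤ (1 + Λ * C * δ) ^ n * d₂ →
      Real.sqrt d₁ * l₁ ^ N * (2 * (N + 1) * δ + l₁ * T₁) <
        Real.sqrt d₂ * l₂ ^ N * (2 * (N + 1) * δ + l₂ * T₂))
    (A B : E n →L[ℝ] E n) (X : E n)
    (hA : ∀ v, ‖v‖ ^ 2 ≤ Λ * ⟪A v, v⟫) (hB : ∀ v, ‖v‖ ^ 2 ≤ Λ * ⟪B v, v⟫)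
    (hAn : ‖A‖ ≤ Λ) (hBn : ‖B‖ ≤ Λ) (hX : ‖X‖ ≤ Λ)
    (hK : ‖B - A‖ ≤ C * ⟪(B - A) X, X⟫) (hδ : 0 < ⟪(B - A) X, X⟫) :
    Real.sqrt A.det * ⟪A X, X⟫ ^ N * (2 * (N + 1) * ⟪(B - A) X, X⟫ +
        ⟪A X, X⟫ * LinearMap.trace ℝ (E n)
          ((A.inverse.comp (B - A) : E n →L[ℝ] E n) : E n →ₗ[ℝ] E n)) <
    Real.sqrt B.det * ⟪B X, X⟫ ^ N * (2 * (N + 1) * ⟪(B - A) X, X⟫ +
        ⟪B X, X⟫ * LinearMap.trace ℝ (E n)
          ((B.inverse.comp (B - A) : E n →L[ℝ] E n) : E n →ₗ[ℝ] E n)) := by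
  obtain ⟨P, hP1, hP2, hP3, hP4, hP5⟩ := inv_data A hΛ hA
  obtain ⟨Q, hQ1, hQ2, hQ3, hQ4, hQ5⟩ := inv_data B hΛ hB
  rw [hP4, hQ4]
  set δ := ⟪(B - A) X, X⟫ with hδdef
  have hbound : ∀ G : E n →L[ℝ] E n, ‖G‖ ≤ Λ → ⟪G X, X⟫ ≤ Λ ^ 3 := by
    intro G hG
    calc ⟪G X, X⟫ ≤ ‖G X‖ * ‖X‖ := real_inner_le_norm _ _
      _ ≤ (‖G‖ * ‖X‖) * ‖X‖ := by gcongr; exact G.le_opNorm _
      _ ≤ (Λ * Λ) * Λ := by gcongr
      _ = Λ ^ 3 := by ring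
  have hX0 : X ≠ 0 := by
    rintro rfl
    simp [hδdef] at hδ
  have hl₁ : 0 < ⟪A X, X⟫ := by
    have h1 := hA X
    have h2 : 0 < ‖X‖ ^ 2 := by positivity
    by_contra h3
    push Not at h3
    nlinarith
  have hl₂ : ⟪B X, X⟫ = ⟪A X, X⟫ + δ := by
    rw [hδdef, sub_apply, inner_sub_left]
    ring
  have htr : ∀ S : E n →L[ℝ] E n, ‖S‖ ≤ Λ →
      |LinearMap.trace ℝ (E n) ((S.comp (B - A) : E n →L[ℝ] E n) : E n →ₗ[ℝ] E n)| ≤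
        n * Λ * C * δ := by
    intro S hS
    calc |LinearMap.trace ℝ (E n) ((S.comp (B - A) : E n →L[ℝ] E n) : E n →ₗ[ℝ] E n)|
        ≤ n * ‖S.comp (B - A)‖ := abs_trace_le _
      _ ≤ n * (‖S‖ * ‖B - A‖) := by gcongr; exact ContinuousLinearMap.opNorm_comp_le _ _
      _ ≤ n * (Λ * (C * δ)) := by gcongr
      _ = n * Λ * C * δ := by ring
  have hdiff : |LinearMap.trace ℝ (E n) ((Q.comp (B - A) : E n →L[ℝ] E n) : E n →ₗ[ℝ] E n) -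
      LinearMap.trace ℝ (E n) ((P.comp (B - A) : E n →L[ℝ] E n) : E n →ₗ[ℝ] E n)| ≤
        n * Λ ^ 2 * C ^ 2 * δ ^ 2 := by
    have e1 : Q.comp (B - A) - P.comp (B - A) =
        -((Q.comp (B - A)).comp (P.comp (B - A))) := by
      have e2 : Q - P = -(Q * (B - A) * P) := by
        have : Q * (B - A) * P = (Q * B) * P - Q * (A * P) := by noncomm_ring
        rw [this, hQ2, hP1]
        simp
      have e3 : Q * (B - A) - P * (B - A) = -((Q * (B - A)) * (P * (B - A))) := by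
        rw [← sub_mul, e2]
        noncomm_ring
      exact e3
    have e4 : LinearMap.trace ℝ (E n) ((Q.comp (B - A) : E n →L[ℝ] E n) : E n →ₗ[ℝ] E n) -
      LinearMap.trace ℝ (E n) ((P.comp (B - A) : E n →L[ℝ] E n) : E n →ₗ[ℝ] E n) =
      LinearMap.trace ℝ (E n)
        ((Q.comp (B - A) - P.comp (B - A) : E n →L[ℝ] E n) : E n →ₗ[ℝ] E n) := by
      rw [ContinuousLinearMap.toLinearMap_sub, map_sub]
    rw [e4, e1, ContinuousLinearMap.toLinearMap_neg, map_neg, abs_neg]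
    calc |LinearMap.trace ℝ (E n) (((Q.comp (B - A)).comp (P.comp (B - A)) :
          E n →L[ℝ] E n) : E n →ₗ[ℝ] E n)|
        ≤ n * ‖(Q.comp (B - A)).comp (P.comp (B - A))‖ := abs_trace_le _
      _ ≤ n * (‖Q.comp (B - A)‖ * ‖P.comp (B - A)‖) := by
          gcongr; exact ContinuousLinearMap.opNorm_comp_le _ _
      _ ≤ n * ((‖Q‖ * ‖B - A‖) * (‖P‖ * ‖B - A‖)) := by
          gcongr
          · exact ContinuousLinearMap.opNorm_comp_le _ _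
          · exact ContinuousLinearMap.opNorm_comp_le _ _
      _ ≤ n * ((Λ * (C * δ)) * (Λ * (C * δ))) := by
          have h0 : 0 ≤ C * δ := (norm_nonneg _).trans hK
          have h1 : 0 ≤ Λ * (C * δ) := by positivity
          gcongr
      _ = n * Λ ^ 2 * C ^ 2 * δ ^ 2 := by ring
  have hdet : A.det ≤ (1 + Λ * C * δ) ^ n * B.det := by
    have e1 : A = B * (Q * A) := by rw [← mul_assoc, hQ1, one_mul]
    have e2 : A.det = B.det * (Q * A).det := by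
      conv_lhs => rw [e1]
      exact LinearMap.det_comp _ _
    have e3 : Q * A = 1 - Q * (B - A) := by
      rw [mul_sub, hQ2]
      abel
    have e4 : ‖Q * A‖ ≤ 1 + Λ * C * δ := by
      rw [e3]
      calc ‖1 - Q * (B - A)‖ ≤ ‖(1 : E n →L[ℝ] E n)‖ + ‖Q * (B - A)‖ := norm_sub_le _ _
        _ ≤ 1 + ‖Q‖ * ‖B - A‖ := by
            gcongr
            · exact ContinuousLinearMap.norm_id_le
            · exact norm_mul_le _ _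
        _ ≤ 1 + Λ * (C * δ) := by gcongr
        _ = 1 + Λ * C * δ := by ring
    have e5 : (Q * A).det ≤ (1 + Λ * C * δ) ^ n :=
      (le_abs_self _).trans ((abs_det_le _).trans (by gcongr))
    rw [e2, mul_comm]
    gcongr
  exact hN δ _ _ _ _ _ _ hδ hl₂ hl₁ (hbound A hAn) (hbound B hBn) (htr P hP3) (htr Q hQ3)
    hdiff hP5 hQ5 hdet

end KP

/-- MODULE KP. Pointwise monotonicity for large `N`: on a compact set of pairs of metrics the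
condition `|g₂ - g₁| ≤ C |g₂(X,X) - g₁(X,X)|` makes the weighted trace densities monotone. -/
theorem mono (n : ℕ) (Λ C : ℝ) : ∃ N : ℕ, ∀ (G₁ G₂ : E n →L[ℝ] E n) (X : E n),
    (∀ u v, ⟪G₁ u, v⟫ = ⟪G₁ v, u⟫) → (∀ u v, ⟪G₂ u, v⟫ = ⟪G₂ v, u⟫) →
    (∀ v, ‖v‖ ^ 2 ≤ Λ * ⟪G₁ v, v⟫) → (∀ v, ‖v‖ ^ 2 ≤ Λ * ⟪G₂ v, v⟫) →
    ‖G₁‖ ≤ Λ → ‖G₂‖ ≤ Λ → ‖X‖ ≤ Λ → ‖G₂ - G₁‖ ≤ C * |⟪(G₂ - G₁) X, X⟫| →
    G₁ ≠ G₂ →
    Real.sqrt G₁.det * ⟪G₁ X, X⟫ ^ N * (2 * (N + 1) * ⟪(G₂ - G₁) X, X⟫ +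
        ⟪G₁ X, X⟫ * LinearMap.trace ℝ (E n)
          ((G₁.inverse.comp (G₂ - G₁) : E n →L[ℝ] E n) : E n →ₗ[ℝ] E n)) <
    Real.sqrt G₂.det * ⟪G₂ X, X⟫ ^ N * (2 * (N + 1) * ⟪(G₂ - G₁) X, X⟫ +
        ⟪G₂ X, X⟫ * LinearMap.trace ℝ (E n)
          ((G₂.inverse.comp (G₂ - G₁) : E n →L[ℝ] E n) : E n →ₗ[ℝ] E n)) := by
  by_cases hpos : 0 < Λ ∧ 0 < C
  · obtain ⟨hΛ, hC⟩ := hpos
    obtain ⟨N, hN⟩ := KP.real_core n hΛ hC
    refine ⟨N, ?_⟩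
    intro G₁ G₂ X _ _ h₁ h₂ hn₁ hn₂ hX hK hne
    have hδ0 : ⟪(G₂ - G₁) X, X⟫ ≠ 0 := by
      intro h0
      rw [h0, abs_zero, mul_zero] at hK
      exact hne (sub_eq_zero.1 (norm_le_zero_iff.1 hK)).symm
    rcases lt_or_gt_of_ne hδ0 with hneg | hgt
    · have e : ⟪(G₁ - G₂) X, X⟫ = -⟪(G₂ - G₁) X, X⟫ := by
        rw [← neg_sub G₂ G₁, neg_apply, inner_neg_left]
      have e' : ∀ S : E n →L[ℝ] E n, LinearMap.trace ℝ (E n)
          ((S.comp (G₁ - G₂) : E n →L[ℝ] E n) : E n →ₗ[ℝ] E n) =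
          -LinearMap.trace ℝ (E n) ((S.comp (G₂ - G₁) : E n →L[ℝ] E n) : E n →ₗ[ℝ] E n) := by
        intro S
        rw [← neg_sub G₂ G₁, ContinuousLinearMap.comp_neg, ContinuousLinearMap.toLinearMap_neg, map_neg]
      have h := KP.core hΛ N hN G₂ G₁ X h₂ h₁ hn₂ hn₁ hX
        (by rw [e, ← abs_of_neg hneg, norm_sub_rev]; exact hK) (by rw [e]; linarith)
      rw [e, e', e'] at h
      linarith
    · exact KP.core hΛ N hN G₁ G₂ X h₁ h₂ hn₁ hn₂ hX (by rwa [abs_of_pos hgt] at hK) hgt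
  · refine ⟨0, ?_⟩
    intro G₁ G₂ X _ _ h₁ h₂ hn₁ hn₂ hX hK hne
    exfalso
    have hΛ0 : 0 ≤ Λ := (norm_nonneg _).trans hn₁
    rcases eq_or_lt_of_le hΛ0 with h0 | h0
    · apply hne
      have a1 : G₁ = 0 := norm_le_zero_iff.1 (by rw [h0]; exact hn₁)
      have a2 : G₂ = 0 := norm_le_zero_iff.1 (by rw [h0]; exact hn₂)
      rw [a1, a2]
    · have hC0 : C ≤ 0 := by
        by_contra hc
        push Not at hc
        exact hpos ⟨h0, hc⟩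
      have h1 : ‖G₂ - G₁‖ ≤ 0 := hK.trans (mul_nonpos_of_nonpos_of_nonneg hC0 (abs_nonneg _))
      exact hne (sub_eq_zero.1 (norm_le_zero_iff.1 h1)).symm

end KBR
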